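import Mathlib
import Pool.Agent.helper81.DI.SpecA

set_option autoImplicit false

namespace Pool.Agent.DI

open Pool.Agent.helper58.DC

open Classical in
theorem A1 : A1_stmt := by
  intro α _ S t F h
  have hfin : S.Finite := Set.toFinite S
  rw [finsum_mem_eq_finite_toFinset_sum _ hfin]
  have hmem : ∀ C, C ∈ hfin.toFinset ↔ C ∈ S := fun C => hfin.mem_toFinset
  have hg : ∀ C ∈ S, ((if t C ∈ C then C.erase (t C) else insert (t C) C) ∈ S ∧
      t (if t C ∈ C then C.erase (t C) else insert (t C) C) = t C ∧
      F (if t C ∈ C then C.erase (t C) else insert (t C) C) = F C) := by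
    intro C hC
    by_cases htc : t C ∈ C
    · simp only [htc, if_true]
      exact h C hC _ (Or.inr rfl)
    · simp only [htc, if_false]
      exact h C hC _ (Or.inl rfl)
  refine Finset.sum_involution
    (fun C _ => if t C ∈ C then C.erase (t C) else insert (t C) C) ?_ ?_ ?_ ?_
  · intro C hC
    obtain ⟨-, -, h3⟩ := hg C ((hmem C).1 hC)
    rw [h3]
    by_cases htc : t C ∈ C
    · simp only [htc, if_true]
      have h4 : (C.erase (t C)).card + 1 = C.card := Finset.card_erase_add_one htc
      rw [h4, pow_succ]
      ring
    · simp only [htc, if_false]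
      rw [Finset.card_insert_of_notMem htc, pow_succ (-1 : ℤ) (C.card + 1)]
      ring
  · intro C hC _ heq
    by_cases htc : t C ∈ C
    · simp only [htc, if_true] at heq
      have h4 : t C ∉ C.erase (t C) := Finset.notMem_erase _ _
      rw [heq] at h4
      exact h4 htc
    · simp only [htc, if_false] at heq
      have h4 : t C ∈ insert (t C) C := Finset.mem_insert_self _ _
      rw [heq] at h4
      exact htc h4
  · intro C hC
    exact (hmem _).2 (hg C ((hmem C).1 hC)).1
  · intro C hC
    obtain ⟨-, h2, -⟩ := hg C ((hmem C).1 hC)
    rw [h2]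
    by_cases htc : t C ∈ C
    · simp only [htc, if_true, Finset.notMem_erase, if_false]
      exact Finset.insert_erase htc
    · simp only [htc, if_false, Finset.mem_insert_self, if_true]
      exact Finset.erase_insert htc

end Pool.Agent.DI
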