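import Mathlib
import Pool.Agent.helper81.DI.SpecB

set_option autoImplicit false

namespace Pool.Agent.DI

open Pool.Agent.helper58.DC

theorem B14_nz {K Γ : Type} [Group K] [Group Γ] (i : K →* Γ) (hi : Function.Injective i)
    (P : Subgroup K) (k : K) : i k ∈ nz (P.map i) ↔ k ∈ nz P := by
  have key : ∀ h : K, i h ∈ P.map i ↔ h ∈ P := fun h => by
    constructor
    · rintro ⟨h', h1, h2⟩
      rwa [← hi h2]
    · exact fun h1 => ⟨h, h1, rfl⟩
  constructor
  · intro h
    rw [Subgroup.mem_normalizer_iff] at h ⊢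
    intro x
    have h1 := h (i x)
    rw [← map_mul, ← map_inv, ← map_mul] at h1
    constructor
    · intro hx
      exact (key _).1 (h1.1 ((key x).2 hx))
    · intro hx
      exact (key x).1 (h1.2 ((key _).2 hx))
  · intro h
    rw [Subgroup.mem_normalizer_iff] at h ⊢
    intro x
    constructor
    · rintro ⟨y, hy, rfl⟩
      exact ⟨k * y * k⁻¹, (h y).1 hy, by simp⟩
    · rintro ⟨y, hy, hy2⟩
      refine ⟨k⁻¹ * y * k, ?_, ?_⟩
      · exact (h _).2 (by
          have : k * (k⁻¹ * y * k) * k⁻¹ = y := by group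
          rw [this]
          exact hy)
      · rw [map_mul, map_mul, map_inv, hy2]
        group

theorem B14_al {K Γ : Type} [Group K] [Group Γ] (i : K →* Γ) (hi : Function.Injective i)
    (P : Subgroup K) (α : MulAut K) (m : Γ) (h : ∀ k, i (α k) = m * i k * m⁻¹) :
    m ∈ nz (P.map i) ↔ P.map α.toMonoidHom = P := by
  have key : ∀ h : K, i h ∈ P.map i ↔ h ∈ P := fun h => by
    constructor
    · rintro ⟨h', h1, h2⟩
      rwa [← hi h2]
    · exact fun h1 => ⟨h, h1, rfl⟩
  constructor
  · intro hm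
    rw [Subgroup.mem_normalizer_iff] at hm
    have h1 : ∀ k : K, k ∈ P ↔ α k ∈ P := by
      intro k
      have h2 := hm (i k)
      rw [← h] at h2
      exact ⟨fun hk => (key _).1 (h2.1 ((key _).2 hk)), fun hk => (key _).1 (h2.2 ((key _).2 hk))⟩
    ext k
    constructor
    · rintro ⟨k', hk', rfl⟩
      exact (h1 k').1 hk'
    · intro hk
      refine ⟨α.symm k, ?_, ?_⟩
      · exact (h1 _).2 (by rw [MulEquiv.apply_symm_apply]; exact hk)
      · exact MulEquiv.apply_symm_apply α k
  · intro hP
    rw [Subgroup.mem_normalizer_iff]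
    intro x
    constructor
    · rintro ⟨y, hy, rfl⟩
      refine ⟨α y, ?_, h y⟩
      have : α y ∈ P.map α.toMonoidHom := ⟨y, hy, rfl⟩
      rwa [hP] at this
    · rintro ⟨y, hy, hy2⟩
      have h3 : y ∈ P.map α.toMonoidHom := by
        rw [hP]
        exact hy
      obtain ⟨z, hz, hz2⟩ := h3
      refine ⟨z, hz, ?_⟩
      have h4 : i (α z) = m * x * m⁻¹ := by
        rw [← hy2]
        congr 1
      rw [h] at h4
      exact mul_left_cancel (mul_right_cancel h4)

theorem B14_mem {Γ : Type} [Group Γ] (C : Finset (Subgroup Γ)) (x : Γ) :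
    x ∈ nrm C ↔ ∀ P ∈ C, x ∈ nz P := by
  unfold nrm
  simp only [Subgroup.mem_iInf]

open Classical in
theorem B14 : B14_stmt := by
  intro K Γ _ _ _ _ i hi C
  have hmap : ∀ x : Γ, x ∈ nrm (cmap i C) ↔ ∀ P ∈ C, x ∈ nz (P.map i) := by
    intro x
    rw [B14_mem]
    unfold cmap
    simp only [Finset.mem_image, forall_exists_index, and_imp, forall_apply_eq_imp_iff₂]
  refine ⟨?_, ?_, ?_⟩
  · exact Finset.card_image_of_injective _ (Subgroup.map_injective hi)
  · rintro -
    ext x
    rw [Subgroup.mem_inf, hmap]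
    constructor
    · rintro ⟨k, hk, rfl⟩
      refine ⟨⟨k, rfl⟩, fun P hP => (B14_nz i hi P k).2 ?_⟩
      exact (B14_mem C k).1 hk P hP
    · rintro ⟨⟨k, rfl⟩, h⟩
      exact ⟨k, (B14_mem C k).2 fun P hP => (B14_nz i hi P k).1 (h P hP), rfl⟩
  · intro α m h hC
    rw [hmap]
    have hal := fun P => B14_al i hi P α m h
    constructor
    · intro h1
      unfold chainMap
      rw [Finset.image_congr (g := id) (fun P hP => (hal P).1 (h1 P hP)), Finset.image_id]
    · intro h1 P hP
      rw [hal P]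
      have h2 : P.map α.toMonoidHom ∈ C := by
        have h3 : P.map α.toMonoidHom ∈ chainMap α C := Finset.mem_image_of_mem _ hP
        rwa [h1] at h3
      have hcard : Nat.card (P.map α.toMonoidHom) = Nat.card P :=
        (Nat.card_congr (P.equivMapOfInjective α.toMonoidHom α.injective).toEquiv).symm
      rcases hC.total (Finset.mem_coe.2 h2) (Finset.mem_coe.2 hP) with h4 | h4
      · exact Subgroup.eq_of_le_of_card_ge h4 hcard.ge
      · exact (Subgroup.eq_of_le_of_card_ge h4 hcard.le).symm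

end Pool.Agent.DI
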