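import Mathlib
import Pool.Agent.helper81.DI.SpecB
import Pool.Agent.helper50.DD.CPL

set_option autoImplicit false

namespace Pool.Agent.DI

open Pool.Agent.helper58.DC

open Classical in
theorem B9a (hB1 : B1_stmt) (hB2 : B2_stmt) (hB3 : B3_stmt) : B9a_stmt := by
  intro H _ _ S θ hθ
  have hft : Fintype H := Fintype.ofFinite H
  obtain ⟨hfin, hB1'⟩ := hB1 H
  obtain ⟨hfinS, hB2'⟩ := hB2 H S
  choose! mm hmm using (fun χ hχ => hB3 H S χ hχ)
  refine ⟨fun χ => mm χ θ, ?_⟩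
  have hS0 : (Nat.card S : ℂ) ≠ 0 := by
    rw [Nat.cast_ne_zero]
    exact Nat.card_pos.ne'
  have hθ0 : ∀ g, g ∉ S → θ g = 0 := (hB2' θ hθ).2.2.2.1
  -- the inner product over `S`
  have hS : ∀ χ ∈ Irr H, ∑ y : H, θ y * χ y⁻¹ = (mm χ θ : ℂ) * Nat.card S := by
    intro χ hχ
    have h1 : ∀ y : H, θ y * χ y⁻¹ = ∑ ψ ∈ hfinS.toFinset, (mm χ ψ : ℂ) * (θ y * ψ y⁻¹) := by
      intro y
      by_cases hy : y ∈ S
      · rw [hmm χ hχ y⁻¹ (S.inv_mem hy), finsum_mem_eq_finite_toFinset_sum _ hfinS,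
          Finset.mul_sum]
        exact Finset.sum_congr rfl fun ψ _ => by ring
      · rw [hθ0 y hy]
        simp
    rw [Finset.sum_congr rfl fun y _ => h1 y, Finset.sum_comm]
    have h2 : ∀ ψ ∈ hfinS.toFinset, ∑ y : H, (mm χ ψ : ℂ) * (θ y * ψ y⁻¹) =
        if θ = ψ then (mm χ ψ : ℂ) * (Nat.card S : ℂ) else 0 := by
      intro ψ hψ
      have h3 := (hB2' θ hθ).2.2.2.2 ψ (hfinS.mem_toFinset.1 hψ)
      rw [finsum_eq_sum_of_fintype] at h3
      rw [← Finset.mul_sum, h3]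
      split_ifs <;> simp
    rw [Finset.sum_congr rfl h2, Finset.sum_ite_eq, if_pos (hfinS.mem_toFinset.2 hθ)]
  -- the induced function
  obtain ⟨F, hF⟩ : ∃ F : H → ℂ, ∀ x, F x = (Nat.card S : ℂ)⁻¹ * ∑ t : H, θ (t⁻¹ * x * t) :=
    ⟨_, fun x => rfl⟩
  have hFc : ∀ g h, F (h * g * h⁻¹) = F g := by
    intro g h
    rw [hF, hF]
    congr 1
    rw [← Equiv.sum_comp (Equiv.mulLeft h)]
    refine Finset.sum_congr rfl fun t _ => ?_
    congr 1
    simp only [Equiv.coe_mulLeft, mul_inv_rev]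
    group
  have hFs : ∀ χ ∈ Irr H, ∑ g : H, F g * χ g⁻¹ = (Nat.card H : ℂ) * (mm χ θ : ℂ) := by
    intro χ hχ
    have h1 : ∀ g, F g * χ g⁻¹ = (Nat.card S : ℂ)⁻¹ * ∑ t : H, θ (t⁻¹ * g * t) * χ g⁻¹ := by
      intro g
      rw [hF, mul_assoc, Finset.sum_mul]
    rw [Finset.sum_congr rfl fun g _ => h1 g, ← Finset.mul_sum, Finset.sum_comm]
    have h2 : ∀ t : H, ∑ g : H, θ (t⁻¹ * g * t) * χ g⁻¹ = (mm χ θ : ℂ) * Nat.card S := by
      intro t
      rw [← hS χ hχ, ← Equiv.sum_comp (MulAut.conj t).toEquiv]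
      refine Finset.sum_congr rfl fun y _ => ?_
      have h3 : t⁻¹ * ((MulAut.conj t).toEquiv y) * t = y := by
        show t⁻¹ * (t * y * t⁻¹) * t = y
        group
      have h4 : ((MulAut.conj t).toEquiv y)⁻¹ = t * y⁻¹ * t⁻¹ := by
        show (t * y * t⁻¹)⁻¹ = t * y⁻¹ * t⁻¹
        group
      rw [h3, h4, (hB1' χ hχ).2.1]
    rw [Finset.sum_congr rfl fun t _ => h2 t, Finset.sum_const, Finset.card_univ,
      ← Nat.card_eq_fintype_card, nsmul_eq_mul]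
    field_simp
  have key := Pool.Agent.DD.CPL H
    (fun x => F x - ∑ φ ∈ hfin.toFinset, (mm φ θ : ℂ) * φ x) ?_ ?_
  · intro x
    have h1 := congrFun key x
    rw [Pi.zero_apply, sub_eq_zero, hF] at h1
    rw [finsum_eq_sum_of_fintype, finsum_mem_eq_finite_toFinset_sum _ hfin]
    exact h1
  · intro g h
    show F (h * g * h⁻¹) - _ = F g - _
    rw [hFc]
    congr 1
    refine Finset.sum_congr rfl fun φ hφ => ?_
    rw [(hB1' φ (hfin.mem_toFinset.1 hφ)).2.1]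
  · intro χ hχ
    have hχ' : χ ∈ Irr H := hχ
    have h1 : ∀ g : H, (F g - ∑ φ ∈ hfin.toFinset, (mm φ θ : ℂ) * φ g) * χ g⁻¹ =
        F g * χ g⁻¹ - ∑ φ ∈ hfin.toFinset, (mm φ θ : ℂ) * (φ g * χ g⁻¹) := by
      intro g
      rw [sub_mul, Finset.sum_mul]
      congr 1
      exact Finset.sum_congr rfl fun φ _ => by ring
    rw [Finset.sum_congr rfl fun g _ => h1 g, Finset.sum_sub_distrib, hFs χ hχ',
      Finset.sum_comm]
    have h2 : ∀ φ ∈ hfin.toFinset, ∑ g : H, (mm φ θ : ℂ) * (φ g * χ g⁻¹) =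
        if φ = χ then (mm φ θ : ℂ) * (Nat.card H : ℂ) else 0 := by
      intro φ hφ
      have h3 := (hB1' φ (hfin.mem_toFinset.1 hφ)).2.2.2 χ hχ'
      rw [finsum_eq_sum_of_fintype] at h3
      rw [← Finset.mul_sum, h3]
      split_ifs <;> simp
    rw [Finset.sum_congr rfl h2, Finset.sum_ite_eq', if_pos (hfin.mem_toFinset.2 hχ')]
    ring

end Pool.Agent.DI
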